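import Pool.Agent.Y382.NCH.Stm

/-!
# Project NCH (helper382): necessity of the condition
-/

set_option autoImplicit false

namespace Pool.Agent.Y662.NCH

open Pool.Agent.Y382.NCH

universe u

open Classical in
theorem prod_near {G : Type u} [Group G] [Fintype G] {a b : G} (h : Near G a b) :
    (∏ x : G, Abelianization.of x) * Abelianization.of b = Abelianization.of a := by
  obtain ⟨θ, g, hg, hF⟩ := h
  set P : Abelianization G := ∏ x : G, Abelianization.of x with hP
  have h1 : ∏ x : G, Abelianization.of (if x = g then b else x * θ x) = P :=
    hF.prod_comp (fun y => Abelianization.of y)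
  have h2 : ∏ x : G, Abelianization.of (x * θ x) = P * P := by
    simp only [map_mul, Finset.prod_mul_distrib]
    rw [Equiv.prod_comp θ (fun y => Abelianization.of y)]
  have h3 := Finset.mul_prod_erase Finset.univ (fun x => Abelianization.of (x * θ x))
    (Finset.mem_univ g)
  have h4 := Finset.mul_prod_erase Finset.univ
    (fun x => Abelianization.of (if x = g then b else x * θ x)) (Finset.mem_univ g)
  have h5 : ∏ x ∈ Finset.univ.erase g, Abelianization.of (if x = g then b else x * θ x) =
      ∏ x ∈ Finset.univ.erase g, Abelianization.of (x * θ x) := by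
    refine Finset.prod_congr rfl fun x hx => ?_
    rw [if_neg (Finset.ne_of_mem_erase hx)]
  rw [h5, h1] at h4
  rw [h2, hg] at h3
  simp only [if_true] at h4
  have h6 : P * (P * Abelianization.of b) = P * Abelianization.of a := by
    rw [← mul_assoc, ← h3, mul_assoc, mul_comm _ (Abelianization.of b), h4, mul_comm]
  exact mul_left_cancel h6

theorem t_NEC : S_NEC.{u} := by
  intro G _ _ a b h1 h2
  have := Fintype.ofFinite G
  have h3 := prod_near h1
  have h4 := prod_near h2
  rw [map_one, mul_one] at h3
  rw [h3, one_mul] at h4
  rw [← Abelianization.ker_of, MonoidHom.mem_ker, map_mul, map_inv, h4, mul_inv_cancel]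

end Pool.Agent.Y662.NCH
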